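import Pool.Agent.Results.MP_18fff8_lc.NoBiEmbClass

/-!
Equivalence relations of structures between isomorphism and equality of the ages, and computable
equivalence with relations on the natural numbers.
-/

set_option autoImplicit false

namespace Pool.Agent.Y534.AG

open Nat.Partrec (Code)
open Nat.Partrec.Code
open Pool.Agent.Results.MP_18fff8_lc.NoBiEmbClass

/-- The relation `R` on the indices of computable structures. -/
def IdxRel (L : Lang) (R : Str → Str → Prop) (e e' : ℕ) : Prop :=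
  ∃ A A', IsIndex L e A ∧ IsIndex L e' A' ∧ R A A'

theorem idx_iff' {L : Lang} {R : Str → Str → Prop} (hRe : Equivalence R)
    (hRi : ∀ A B h, IsIso L A B h → R A B) {e e' : ℕ} {A A' : Str} (h : IsIndex L e A)
    (h' : IsIndex L e' A') : IdxRel L R e e' ↔ R A A' := by
  constructor
  · rintro ⟨B, B', hB, hB', hbi⟩
    have i1 := hRi _ _ _ (id_iso_of_diagram L (index_unique L h hB))
    have i2 := hRi _ _ _ (id_iso_of_diagram L (index_unique L hB' h'))
    exact hRe.trans (hRe.trans i1 hbi) i2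
  · intro hbi
    exact ⟨A, A', h, h', hbi⟩

theorem good_trans {L : Lang} {A B C : Str} {s : ℕ} {l : List ℕ} (h : Good L A s B l)
    (hBC : AgeLe L B C) : ∃ l', Good L A s C l' := by
  classical
  obtain ⟨q1, q2, q3⟩ := h
  obtain ⟨f, f1, f2, f3⟩ := hBC (((Finset.range s).filter (· ∈ A.U)).image (ap l)) s (by
    intro x hx
    obtain ⟨y, hy, rfl⟩ := Finset.mem_image.1 hx
    exact q1 y (Finset.mem_range.1 (Finset.mem_filter.1 hy).1) (Finset.mem_filter.1 hy).2)
  have hm : ∀ x, x < s → x ∈ A.U → ap l x ∈ ((Finset.range s).filter (· ∈ A.U)).image (ap l) :=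
    fun x h1 h2 => Finset.mem_image_of_mem _ (Finset.mem_filter.2 ⟨Finset.mem_range.2 h1, h2⟩)
  refine ⟨(List.range s).map (fun x => f (ap l x)), fun x hx hU => ?_,
    fun x hx y hy hxU hyU e => ?_, fun i xs hc ht => ?_⟩
  · rw [ap_map_range _ hx]
    exact f1 _ (hm x hx hU)
  · rw [ap_map_range _ hx, ap_map_range _ hy] at e
    exact q2 x hx y hy hxU hyU (f2 _ (hm x hx hxU) _ (hm y hy hyU) e)
  · obtain ⟨hi, hb⟩ := code_bounds hc
    rw [q3 i xs hc ht]
    have ht' : Tup L B i (xs.map (ap l)) := by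
      refine ⟨ht.1, by simpa using ht.2.1, ?_⟩
      intro y hy
      obtain ⟨z, hz, rfl⟩ := List.mem_map.1 hy
      exact q1 z (hb z hz) (ht.2.2 z hz)
    rw [f3 i hi _ ht' (fun y hy => by
      obtain ⟨z, hz, rfl⟩ := List.mem_map.1 hy
      exact hm z (hb z hz) (ht.2.2 z hz)), List.map_map]
    have : xs.map (f ∘ ap l) = xs.map (ap ((List.range s).map (fun x => f (ap l x)))) :=
      List.map_congr_left fun y hy => (ap_map_range _ (hb y hy)).symm
    rw [this]

theorem diagonal (L : Lang) (R : Str → Str → Prop) (hRe : Equivalence R)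
    (hRi : ∀ A B h, IsIso L A B h → R A B) (K : Str → Prop)
    (hK : ∀ A B h, K A → IsIso L A B h → K B) (f : ℕ →. ℕ) (hf : Partrec f)
    (hfI : ∀ e ∈ IndexSet L K, ∃ y ∈ f e, y ∈ (Set.univ : Set ℕ))
    (hfE : ∀ e ∈ IndexSet L K, ∀ e' ∈ IndexSet L K, ∀ y ∈ f e, ∀ y' ∈ f e',
      (IdxRel L R e e' ↔ Rel y y'))
    (B C : Str) (hB : K B) (hC : K C) (b c : ℕ) (hb : IsIndex L b B) (hc : IsIndex L c C)
    (hBC : ¬ R B C) (h1 : AgeLe L B C) (h2 : AgeLe L C B) (yb : ℕ) (hyb : yb ∈ f b)
    (hA : SetA yb) : False := by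
  classical
  obtain ⟨cf, hcf⟩ := exists_code.1 (Partrec.nat_iff.1 hf)
  obtain ⟨β, hβ, hβ2⟩ := index_comp L (P := Unit) (Computable.const b) (A := fun _ => B)
    (fun _ => hb)
  obtain ⟨γ, hγ, hγ2⟩ := index_comp L (P := Unit) (Computable.const c) (A := fun _ => C)
    (fun _ => hc)
  have hβ' : Computable (β ()) := hβ.comp (Computable.const ()) Computable.id
  have hγ' : Computable (γ ()) := hγ.comp (Computable.const ()) Computable.id
  obtain ⟨V1, v1, hv1, hV1, n1, s1⟩ := switch L (P := Code) (fun _ => B) (fun _ => β ())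
    (hβ'.comp Computable.snd).to₂ (fun _ n => hβ2 () n) C (γ ()) hγ' (fun n => hγ2 () n)
    (fun _ => h1) (ev1 cf) (ev_comp cf).1
  have hidB : IsIso L B B id := id_iso_of_diagram L rfl
  have hage : ∀ p, AgeLe L (V1 p) B := by
    intro p
    by_cases hex : ∃ s, ev1 cf p s = true
    · obtain ⟨s, hs⟩ := hex
      obtain ⟨h, hh⟩ := s1 p s hs
      exact AgeLe.emb_left hh.1 h2
    · rw [n1 p (fun s => by
        by_contra hcon
        exact hex ⟨s, by simpa using hcon⟩)]
      exact ageLe_of_emb hidB.1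
  obtain ⟨V2, v2, hv2, hV2, n2, s2⟩ := switch L (P := Code) V1 v1 hv1 hV1 B (β ()) hβ'
    (fun n => hβ2 () n) hage (ev2 cf) (ev_comp cf).2
  -- the recursion theorem
  have hp : Partrec₂ fun (d : Code) (n : ℕ) => Part.some (bif v2 d n then 1 else 0 : ℕ) := by
    have : Computable fun q : Code × ℕ => (bif v2 q.1 q.2 then 1 else 0 : ℕ) :=
      Computable.cond hv2 (Computable.const 1) (Computable.const 0)
    exact this.partrec.to₂
  obtain ⟨d, hd⟩ := fixed_point₂ hp
  have hidx : IsIndex L (Encodable.encode d) (V2 d) := by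
    intro n
    rw [Denumerable.ofNat_encode, hd]
    by_cases hn : n ∈ diagram L (V2 d)
    · simp [hn, (hV2 d n).2 hn]
    · have : v2 d n = false := by
        by_contra hcon
        exact hn ((hV2 d n).1 (by simpa using hcon))
      simp [hn, this]
  -- the three cases
  have caseB2 : ∀ s, ev2 cf d s = true → ∃ h, IsIso L (V2 d) B h := fun s hs => s2 d s hs
  have caseC : ∀ s, ev1 cf d s = true → (∀ t, ev2 cf d t = false) →
      ∃ h, IsIso L (V2 d) C h := by
    intro s hs ht
    rw [n2 d ht]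
    exact s1 d s hs
  have caseB1 : (∀ s, ev1 cf d s = false) → (∀ t, ev2 cf d t = false) →
      ∃ h, IsIso L (V2 d) B h := by
    intro hs ht
    rw [n2 d ht, n1 d hs]
    exact ⟨id, hidB⟩
  have hKV : K (V2 d) := by
    by_cases e2 : ∃ s, ev2 cf d s = true
    · obtain ⟨s, hs⟩ := e2
      obtain ⟨h, hh⟩ := caseB2 s hs
      obtain ⟨k, hk⟩ := iso_symm L hh
      exact hK _ _ k hB hk
    · have e2' : ∀ t, ev2 cf d t = false := fun t => by
        by_contra hcon
        exact e2 ⟨t, by simpa using hcon⟩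
      by_cases e1 : ∃ s, ev1 cf d s = true
      · obtain ⟨s, hs⟩ := e1
        obtain ⟨h, hh⟩ := caseC s hs e2'
        obtain ⟨k, hk⟩ := iso_symm L hh
        exact hK _ _ k hC hk
      · have e1' : ∀ t, ev1 cf d t = false := fun t => by
          by_contra hcon
          exact e1 ⟨t, by simpa using hcon⟩
        obtain ⟨h, hh⟩ := caseB1 e1' e2'
        obtain ⟨k, hk⟩ := iso_symm L hh
        exact hK _ _ k hB hk
  have hin : Encodable.encode d ∈ IndexSet L K := ⟨V2 d, hKV, hidx⟩
  have hbin : b ∈ IndexSet L K := ⟨B, hB, hb⟩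
  obtain ⟨y, hy, -⟩ := hfI _ hin
  have key : R (V2 d) B ↔ SetA y := by
    rw [← idx_iff' hRe hRi hidx hb, hfE _ hin _ hbin y hy yb hyb]
    exact ⟨fun h => h.2 hA, fun h => ⟨fun _ => hA, fun _ => h⟩⟩
  rw [← hcf] at hy
  obtain ⟨k, hk⟩ := evaln_complete.1 hy
  -- evaluation of the events
  have val : ∀ s, evaln s cf (Encodable.encode d) = none ∨
      evaln s cf (Encodable.encode d) = some y := by
    intro s
    rcases hes : evaln s cf (Encodable.encode d) with _ | z
    · exact Or.inl rfl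
    · right
      rw [evaln_det (c := cf) (k := s) (l := k) hes hk]
  have large : ∀ s, k ≤ s → evaln s cf (Encodable.encode d) = some y := fun s hs =>
    evaln_mono hs hk
  have ev1_false : (∀ s, (!(y.unpair.1 == 0) || Hs y.unpair.2 s) = false) →
      ∀ s, ev1 cf d s = false := by
    intro hh s
    unfold ev1
    rcases val s with h | h
    · rw [h]
    · rw [h]; exact hh s
  have ev2_false : (∀ s, (!(y.unpair.1 == 0) && Hs y.unpair.2 s) = false) →
      ∀ s, ev2 cf d s = false := by
    intro hh s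
    unfold ev2
    rcases val s with h | h
    · rw [h]
    · rw [h]; exact hh s
  by_cases hy0 : y.unpair.1 = 0
  · have hev2 : ∀ s, ev2 cf d s = false := ev2_false fun s => by simp [hy0]
    by_cases hH : Hal y.unpair.2
    · obtain ⟨m, hm⟩ := (Hal_iff _).1 hH
      have : ev1 cf d (max k m) = true := by
        unfold ev1
        rw [large _ (le_max_left _ _)]
        simp [Hs_mono (le_max_right k m) hm]
      obtain ⟨h, hh⟩ := caseC _ this hev2
      have hSA : SetA y := Or.inl ⟨hy0, hH⟩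
      exact hBC (hRe.trans (hRe.symm (key.2 hSA)) (hRi _ _ _ hh))
    · have hev1 : ∀ s, ev1 cf d s = false := ev1_false fun s => by
        have : Hs y.unpair.2 s = false := by
          by_contra hcon
          exact hH ((Hal_iff _).2 ⟨s, by simpa using hcon⟩)
        simp [hy0, this]
      obtain ⟨h, hh⟩ := caseB1 hev1 hev2
      rcases key.1 (hRi _ _ _ hh) with ⟨_, q⟩ | ⟨q, _⟩
      · exact hH q
      · exact q hy0
  · by_cases hH : Hal y.unpair.2
    · obtain ⟨m, hm⟩ := (Hal_iff _).1 hH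
      have : ev2 cf d (max k m) = true := by
        unfold ev2
        rw [large _ (le_max_left _ _)]
        simp [hy0, Hs_mono (le_max_right k m) hm]
      obtain ⟨h, hh⟩ := caseB2 _ this
      rcases key.1 (hRi _ _ _ hh) with ⟨q, _⟩ | ⟨_, q⟩
      · exact hy0 q
      · exact q hH
    · have hev2 : ∀ s, ev2 cf d s = false := ev2_false fun s => by
        have : Hs y.unpair.2 s = false := by
          by_contra hcon
          exact hH ((Hal_iff _).2 ⟨s, by simpa using hcon⟩)
        simp [this]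
      have : ev1 cf d k = true := by
        unfold ev1
        rw [large _ le_rfl]
        simp [hy0]
      obtain ⟨h, hh⟩ := caseC _ this hev2
      have hSA : SetA y := Or.inr ⟨hy0, hH⟩
      exact hBC (hRe.trans (hRe.symm (key.2 hSA)) (hRi _ _ _ hh))

/-- The two-class relation `Rel` is not computably equivalent to any equivalence relation between
isomorphism and equality of the ages, on any class of structures closed under isomorphism. -/
theorem main (L : Lang) (K : Str → Prop) (hK : ∀ A B h, K A → IsIso L A B h → K B)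
    (R : Str → Str → Prop) (hRe : Equivalence R) (hRi : ∀ A B h, IsIso L A B h → R A B)
    (hRa : ∀ A B, R A B → AgeLe L A B ∧ AgeLe L B A) :
    ¬ (CReduces Set.univ Results.MP_18fff8_lc.NoBiEmbClass.Rel (IndexSet L K) (IdxRel L R) ∧
      CReduces (IndexSet L K) (IdxRel L R) Set.univ Results.MP_18fff8_lc.NoBiEmbClass.Rel) := by
  classical
  rintro ⟨⟨g, hg, hgI, hgE⟩, ⟨f, hf, hfI, hfE⟩⟩
  choose g0 hg0 hg0I using fun x => hgI x (Set.mem_univ x)
  have hg0c : Computable g0 := hg.of_eq_tot hg0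
  choose S hSK hSI using hg0I
  have hE : ∀ x x', Rel x x' ↔ R (S x) (S x') := fun x x' =>
    (hgE x (Set.mem_univ _) x' (Set.mem_univ _) _ (hg0 x) _ (hg0 x')).trans
      (idx_iff' hRe hRi (hSI x) (hSI x'))
  obtain ⟨a, ha, ha2⟩ := index_comp L hg0c hSI
  -- a point in the set and a point outside it
  obtain ⟨x0, x1, hx0, hx1⟩ : ∃ x0 x1, SetA x0 ∧ ¬ SetA x1 := by
    by_cases h : Hal 0
    · exact ⟨Nat.pair 0 0, Nat.pair 1 0, (SetA_zero 0).2 h, fun h' => (SetA_one 0).1 h' h⟩
    · exact ⟨Nat.pair 1 0, Nat.pair 0 0, (SetA_one 0).2 h, fun h' => h ((SetA_zero 0).1 h')⟩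
  have hnot : ¬ R (S x0) (S x1) := fun h => by
    have := (hE x0 x1).2 h
    exact hx1 (this.1 hx0)
  have hinK : ∀ x, g0 x ∈ IndexSet L K := fun x => ⟨S x, hSK x, hSI x⟩
  -- general claim: if a finite part of `S u` is not realised in `S w`, the class of `u` is r.e.
  have re_claim : ∀ u w, ¬ Rel u w → ¬ AgeLe L (S u) (S w) → REPred fun x => Rel x u := by
    intro u w huw hage
    have : ∃ s, ∀ l, ¬ Good L (S u) s (S w) l := by
      by_contra hcon
      push Not at hcon
      exact hage (age_of_good hcon)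
    obtain ⟨s, hs⟩ := this
    have hq : Computable₂ fun (x m : ℕ) => goodb L (a u) (a x) s (Denumerable.ofNat (List ℕ) m) := by
      have := goodb_comp (α := ℕ × ℕ) L (a := fun _ => a u) (b := fun q => a q.1)
        (s := fun _ => s) (h := fun q => Denumerable.ofNat (List ℕ) q.2)
        (ha.comp (Computable.const u) Computable.snd).to₂
        (ha.comp (Computable.fst.comp Computable.fst) Computable.snd).to₂ (Computable.const s)
        ((Computable.ofNat (List ℕ)).comp Computable.snd)
      exact this.to₂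
    refine (re_of_search hq).of_eq fun x => ?_
    constructor
    · rintro ⟨m, hm⟩
      have hgood := (goodb_iff (ha2 u) (ha2 x) s _).1 hm
      -- `x` is related to `u` or to `w`
      by_contra hxu
      have hxw : Rel x w := by
        unfold Results.MP_18fff8_lc.NoBiEmbClass.Rel at hxu huw ⊢
        by_cases q1 : SetA x <;> by_cases q2 : SetA u <;> by_cases q3 : SetA w <;> simp_all
      obtain ⟨l', hl'⟩ := good_trans hgood (hRa _ _ ((hE x w).1 hxw)).1
      exact hs l' hl'
    · intro hxu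
      obtain ⟨l, hl⟩ := good_of_age (hRa _ _ ((hE x u).1 hxu)).2 s
      refine ⟨Encodable.encode l, ?_⟩
      rw [Denumerable.ofNat_encode]
      exact (goodb_iff (ha2 u) (ha2 x) s l).2 hl
  have hage01 : AgeLe L (S x0) (S x1) := by
    by_contra hcon
    exact SetA_not_re ((re_claim x0 x1 (fun h => hx1 (h.1 hx0)) hcon).of_eq fun x =>
      ⟨fun h => h.2 hx0, fun h => ⟨fun _ => hx0, fun _ => h⟩⟩)
  have hage10 : AgeLe L (S x1) (S x0) := by
    by_contra hcon
    exact SetA_not_core ((re_claim x1 x0 (fun h => hx1 (h.2 hx0)) hcon).of_eq fun x =>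
      ⟨fun h hx => hx1 (h.1 hx), fun h => ⟨fun hx => absurd hx h, fun hx => absurd hx hx1⟩⟩)
  obtain ⟨y0, hy0, -⟩ := hfI _ (hinK x0)
  obtain ⟨y1, hy1, -⟩ := hfI _ (hinK x1)
  by_cases hA0 : SetA y0
  · exact diagonal L R hRe hRi K hK f hf hfI hfE (S x0) (S x1) (hSK x0) (hSK x1) _ _ (hSI x0) (hSI x1)
      hnot hage01 hage10 y0 hy0 hA0
  · have hA1 : SetA y1 := by
      by_contra hcon
      have : Rel y0 y1 := ⟨fun h => absurd h hA0, fun h => absurd h hcon⟩
      have h3 := (hfE _ (hinK x0) _ (hinK x1) y0 hy0 y1 hy1).2 this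
      exact hnot ((idx_iff' hRe hRi (hSI x0) (hSI x1)).1 h3)
    exact diagonal L R hRe hRi K hK f hf hfI hfE (S x1) (S x0) (hSK x1) (hSK x0) _ _ (hSI x1) (hSI x0)
      (fun h => hnot (hRe.symm h)) hage10 hage01 y1 hy1 hA1


theorem biemb_equiv (L : Lang) : Equivalence (BiEmb L) :=
  ⟨fun A => biemb_of_iso L (id_iso_of_diagram L (rfl : diagram L A = diagram L A)),
    fun h => biemb_symm L h, fun h h' => biemb_trans L h h'⟩

theorem iso_equiv (L : Lang) : Equivalence fun A B : Str => ∃ h, IsIso L A B h :=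
  ⟨fun A => ⟨id, id_iso_of_diagram L (rfl : diagram L A = diagram L A)⟩,
    fun ⟨_, hh⟩ => iso_symm L hh,
    fun ⟨h, hh⟩ ⟨k, hk⟩ => ⟨k ∘ h, emb_comp L hh.1 hk.1, fun y hy => by
      obtain ⟨z, hz, rfl⟩ := hk.2 y hy
      obtain ⟨x, hx, rfl⟩ := hh.2 z hz
      exact ⟨x, hx, rfl⟩⟩⟩

end Pool.Agent.Y534.AG
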